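import Pool.Agent.Work.MP_db9399_ts.Light

/-!
# MP_db9399, TSPLIT, block FSY (helper79): the system of the flexible edges satisfies the
# hypotheses of PHASE
-/

set_option autoImplicit false
set_option maxHeartbeats 4000000
set_option linter.unusedSectionVars false

namespace Pool.Agent.Work.MP_db9399_ts.helper79

open Finset Classical
open Pool.Agent.Work.MP_db9399_all (nb)
open Pool.Agent.Work.MP_db9399_clj.helper75 (OO blk nB eE)
open Pool.Agent.Work.MP_db9399_ts

universe u

section Gen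

/-- counting from above -/
lemma cnt_le {N α : Type*} [Fintype N] {P : N → Prop} {dec : DecidablePred P} (S : Finset α)
    (f : N → α) (hf : ∀ n, P n → f n ∈ S) (hinj : ∀ n n', P n → P n' → f n = f n' → n = n') :
    (@Finset.filter N P dec univ).card ≤ S.card := by
  apply Finset.card_le_card_of_injOn f
  · intro n hn
    exact Finset.mem_coe.mpr (hf n (Finset.mem_filter.mp (Finset.mem_coe.mp hn)).2)
  · intro n hn n' hn' h
    exact hinj n n' (Finset.mem_filter.mp (Finset.mem_coe.mp hn)).2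
      (Finset.mem_filter.mp (Finset.mem_coe.mp hn')).2 h

/-- sums from below -/
lemma sum_ge {N α : Type*} [Fintype N] {P : N → Prop} {dec : DecidablePred P} (F : N → ℝ)
    (s : ℝ) (hs : 0 ≤ s) (hF : ∀ n, s ≤ F n) (S : Finset α) (f : N → α)
    (h : ∀ a ∈ S, ∃ n, P n ∧ f n = a) :
    s * (S.card : ℝ) ≤ ∑ n ∈ @Finset.filter N P dec univ, F n := by
  classical
  have h1 : S ⊆ (@Finset.filter N P dec univ).image f := by
    intro a ha
    obtain ⟨n, hn, he⟩ := h a ha
    exact Finset.mem_image.mpr ⟨n, Finset.mem_filter.mpr ⟨Finset.mem_univ _, hn⟩, he⟩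
  have h2 : S.card ≤ (@Finset.filter N P dec univ).card :=
    (Finset.card_le_card h1).trans Finset.card_image_le
  have h3 : s * (S.card : ℝ) ≤ s * ((@Finset.filter N P dec univ).card : ℝ) :=
    mul_le_mul_of_nonneg_left (by exact_mod_cast h2) hs
  refine h3.trans ?_
  have h4 := Finset.card_nsmul_le_sum (@Finset.filter N P dec univ) F s (fun n _ => hF n)
  rw [nsmul_eq_mul] at h4
  linarith

variable {E V P R N : Type u} [Fintype V] [Fintype N] (Y : Sys E V P R N)

lemma D_le {α : Type*} {p : P} {S : Finset α} {f : N → α} (hf : ∀ n, Y.pu n = some p → f n ∈ S)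
    (hinj : ∀ n n', Y.pu n = some p → Y.pu n' = some p → f n = f n' → n = n') :
    Y.D p ≤ (S.card : ℝ) := by
  unfold Sys.D
  exact_mod_cast cnt_le S f hf hinj

lemma le_D {α : Type*} {p : P} {S : Finset α} {f : N → α}
    (h : ∀ a ∈ S, ∃ n, Y.pu n = some p ∧ f n = a) : (S.card : ℝ) ≤ Y.D p := by
  have h1 := sum_ge (dec := fun n => inferInstance) (P := fun n => Y.pu n = some p)
    (fun _ : N => (1 : ℝ)) 1 zero_le_one (fun _ => le_rfl) S f h
  rw [one_mul, Finset.sum_const, nsmul_eq_mul, mul_one] at h1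
  unfold Sys.D
  exact h1

lemma D_zero (p : P) (h : ∀ n, Y.pu n ≠ some p) : Y.D p = 0 := by
  unfold Sys.D
  rw [Finset.filter_false_of_mem (fun n _ => h n)]
  simp

end Gen

section Basic

variable {W B : Type u}

lemma mem_nb [Fintype W] (G : SimpleGraph W) (v w : W) : w ∈ nb G v ↔ G.Adj v w := by
  unfold nb; simp

lemma mem_blk [Fintype W] (bl : W → Option B) (b : B) (v : W) : v ∈ blk bl b ↔ bl v = some b := by
  unfold blk; simp

lemma eE_eq [Fintype W] (E : SimpleGraph W) (A A' : Finset W) :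
    eE E A A' = (((A ×ˢ A').filter fun p => E.Adj p.1 p.2).card : ℝ) := by
  unfold eE
  rw [Finset.card_filter, Finset.sum_product]
  push_cast
  apply Finset.sum_congr rfl
  intro v _
  have h : nb E v ∩ A' = A'.filter (fun w => E.Adj v w) := by
    ext w
    rw [Finset.mem_inter, Finset.mem_filter, mem_nb]
    exact and_comm
  rw [h, Finset.card_filter]
  push_cast
  rfl

lemma eE_symm [Fintype W] (E : SimpleGraph W) (A A' : Finset W) : eE E A A' = eE E A' A := by
  rw [eE_eq, eE_eq]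
  norm_cast
  apply Finset.card_bij (fun p _ => (p.2, p.1))
  · intro p hp
    rw [Finset.mem_filter, Finset.mem_product] at hp ⊢
    exact ⟨⟨hp.1.2, hp.1.1⟩, hp.2.symm⟩
  · intro p _ q _ h
    exact Prod.ext (Prod.ext_iff.mp h).2 (Prod.ext_iff.mp h).1
  · intro q hq
    rw [Finset.mem_filter, Finset.mem_product] at hq
    refine ⟨(q.2, q.1), ?_, rfl⟩
    rw [Finset.mem_filter, Finset.mem_product]
    exact ⟨⟨hq.1.2, hq.1.1⟩, hq.2.symm⟩

variable (X : Dat W B)

lemma rw_some (v : W) (q : B) (h : X.rw v = some q) : X.bl v = some q ∧ X.kd q = Kd.S := by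
  unfold Dat.rw at h
  cases hb : X.bl v with
  | none => rw [hb] at h; simp at h
  | some b =>
    rw [hb, Option.bind_some] at h
    by_cases hk : X.kd b = Kd.S
    · rw [if_pos hk] at h
      have : b = q := Option.some.inj h
      subst this
      exact ⟨rfl, hk⟩
    · rw [if_neg hk] at h
      exact absurd h (by simp)

lemma rw_of (v : W) (q : B) (h : X.bl v = some q) (hk : X.kd q = Kd.S) : X.rw v = some q := by
  unfold Dat.rw
  rw [h, Option.bind_some, if_pos hk]

lemma rw_congr (v v' : W) (h : X.bl v = X.bl v') : X.rw v = X.rw v' := by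
  unfold Dat.rw
  rw [h]

lemma si_none (v : W) (h : X.bl v = none) : X.si v = Sum.inl v := by
  unfold Dat.si
  rw [h]

lemma si_some (v : W) (b : B) (h : X.bl v = some b) : X.si v = Sum.inr b := by
  unfold Dat.si
  rw [h]

variable [Fintype W] [Fintype B]

lemma e_symm (b b' : B) : X.e b b' = X.e b' b := eE_symm _ _ _

lemma tp_symm (c : ℝ) (b b' : B) (h : X.tp c b b') : X.tp c b' b := by
  refine ⟨h.1.symm, ?_⟩
  rw [e_symm]
  exact h.2

lemma th_le : X.Th ≤ X.G := by
  intro v w h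
  unfold Dat.Th at h
  exact (sdiff_le : X.G \ X.Bk ≤ X.G) h

lemma mem_sc (c : ℝ) (x v : W) : v ∈ X.sc c x ↔
    X.G.Adj x v ∧ ∃ b, X.bl v = some b ∧ ¬ X.fat c x b ∧ X.cq x ≠ X.cq v := by
  unfold Dat.sc
  rw [Finset.mem_filter, mem_nb]

variable (Ty : Kd → Prop) (gr : W → Fin 3) (c : ℝ)

lemma flL_symm (v w : W) (h : X.flL Ty gr c v w) : X.flL Ty gr c w v := by
  obtain ⟨h1, ⟨b, b', hb, hb', ht, hk⟩, h3⟩ := h
  refine ⟨h1.symm, ⟨b', b, hb', hb, tp_symm X c b b' ht, hk.symm⟩, ?_⟩
  rintro ⟨h4, h5, h6⟩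
  exact h3 ⟨h5, h4, h6.symm⟩

lemma flL_light (v w : W) (h : X.flL Ty gr c v w) : X.bl v ≠ none ∧ X.bl w ≠ none := by
  obtain ⟨_, ⟨b, b', hb, hb', _, _⟩, _⟩ := h
  exact ⟨by rw [hb]; simp, by rw [hb']; simp⟩

lemma flH_light (v x : W) (h : X.flH c v x) : X.bl v ≠ none ∧ X.bl x = none := by
  obtain ⟨h1, h2, _⟩ := h
  rw [mem_sc] at h2
  obtain ⟨_, b, hb, _⟩ := h2
  exact ⟨by rw [hb]; simp, h1⟩

lemma fl_light (v y : W) (h : X.fl Ty gr c v y) : X.bl v ≠ none := by
  rcases h with h | h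
  · exact (flH_light X c v y h).1
  · exact (flL_light X Ty gr c v y h).1

lemma fl_adj (v y : W) (h : X.fl Ty gr c v y) : X.G.Adj v y := by
  rcases h with h | h
  · have h2 := h.2.1
    rw [mem_sc] at h2
    exact h2.1.symm
  · exact th_le X h.1

lemma fl_none (v y : W) (h : X.fl Ty gr c v y) (hy : X.bl y = none) : X.flH c v y := by
  rcases h with h | h
  · exact h
  · exact absurd hy (flL_light X Ty gr c v y h).2

lemma fl_some (v y : W) (h : X.fl Ty gr c v y) (hy : X.bl y ≠ none) : X.flL Ty gr c v y := by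
  rcases h with h | h
  · exact absurd (flH_light X c v y h).2 hy
  · exact h

/-! the system -/

lemma ed_def (n : X.En Ty gr c) : (X.sys Ty gr c).ed n = s(n.1.1, n.1.2) := rfl

lemma vx_def (n : X.En Ty gr c) : (X.sys Ty gr c).vx n = n.1.1 := rfl

lemma row_def (v : W) : (X.sys Ty gr c).row v = X.rw v := rfl

lemma rp_def (q : B) : (X.sys Ty gr c).rp q = Sum.inr q := rfl

lemma isR_inr (q : B) : (X.sys Ty gr c).isR (Sum.inr q) := ⟨q, rfl⟩

lemma isR_inl (y : W) : ¬ (X.sys Ty gr c).isR (Sum.inl y) := by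
  rintro ⟨q, hq⟩
  rw [rp_def] at hq
  exact absurd hq (by simp)

lemma pu_def (n : X.En Ty gr c) : (X.sys Ty gr c).pu n =
    if X.bl n.1.2 = none then some (Sum.inl n.1.2) else
    (X.rw n.1.2).bind fun q => if X.par Ty gr c q then some (Sum.inr q) else none := rfl

lemma mt_def (n : X.En Ty gr c) : (X.sys Ty gr c).mt n =
    if h : X.fl Ty gr c n.1.2 n.1.1 then some ⟨(n.1.2, n.1.1), h⟩ else none := rfl

lemma pu_inl (n : X.En Ty gr c) (y : W) :
    (X.sys Ty gr c).pu n = some (Sum.inl y) ↔ X.bl n.1.2 = none ∧ n.1.2 = y := by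
  rw [pu_def]
  by_cases h : X.bl n.1.2 = none
  · rw [if_pos h]
    constructor
    · intro h1
      exact ⟨h, by simpa using h1⟩
    · rintro ⟨_, h2⟩
      rw [h2]
  · rw [if_neg h]
    constructor
    · intro h1
      exfalso
      cases hr : X.rw n.1.2 with
      | none => rw [hr] at h1; simp at h1
      | some q =>
        rw [hr, Option.bind_some] at h1
        by_cases hp : X.par Ty gr c q
        · rw [if_pos hp] at h1; simp at h1
        · rw [if_neg hp] at h1; simp at h1
    · rintro ⟨h2, _⟩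
      exact absurd h2 h

lemma pu_inr (n : X.En Ty gr c) (q : B) :
    (X.sys Ty gr c).pu n = some (Sum.inr q) ↔ X.rw n.1.2 = some q ∧ X.par Ty gr c q := by
  rw [pu_def]
  by_cases h : X.bl n.1.2 = none
  · rw [if_pos h]
    constructor
    · intro h1
      simp at h1
    · rintro ⟨h2, _⟩
      have := (rw_some X _ _ h2).1
      rw [h] at this
      exact absurd this (by simp)
  · rw [if_neg h]
    constructor
    · intro h1
      cases hr : X.rw n.1.2 with
      | none => rw [hr] at h1; simp at h1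
      | some q' =>
        rw [hr, Option.bind_some] at h1
        by_cases hp : X.par Ty gr c q'
        · rw [if_pos hp] at h1
          have : q' = q := by simpa using h1
          subst this
          exact ⟨rfl, hp⟩
        · rw [if_neg hp] at h1; simp at h1
    · rintro ⟨h2, h3⟩
      rw [h2, Option.bind_some, if_pos h3]

lemma mt_some (n n' : X.En Ty gr c) (h : (X.sys Ty gr c).mt n = some n') :
    n'.1 = (n.1.2, n.1.1) ∧ X.fl Ty gr c n.1.2 n.1.1 := by
  rw [mt_def] at h
  by_cases h1 : X.fl Ty gr c n.1.2 n.1.1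
  · rw [dif_pos h1] at h
    have := Option.some.inj h
    rw [← this]
    exact ⟨rfl, h1⟩
  · rw [dif_neg h1] at h
    exact absurd h (by simp)

lemma mt_of (n n' : X.En Ty gr c) (h : n'.1 = (n.1.2, n.1.1)) :
    (X.sys Ty gr c).mt n = some n' := by
  rw [mt_def]
  have h1 : X.fl Ty gr c n.1.2 n.1.1 := by
    have := n'.2
    rw [h] at this
    exact this
  rw [dif_pos h1]
  congr 1
  exact Subtype.ext h.symm

lemma mt_flL (n n' : X.En Ty gr c) (h : (X.sys Ty gr c).mt n = some n') :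
    X.flL Ty gr c n.1.1 n.1.2 ∧ (X.sys Ty gr c).vx n' = n.1.2 := by
  obtain ⟨h1, h2⟩ := mt_some X Ty gr c n n' h
  refine ⟨fl_some X Ty gr c _ _ n.2 (fl_light X Ty gr c _ _ h2), ?_⟩
  rw [vx_def, h1]

lemma ok : (X.sys Ty gr c).Ok (X.par Ty gr c) where
  inj := Sum.inr_injective
  m1 := by
    intro n n' h
    obtain ⟨h1, h2⟩ := mt_some X Ty gr c n n' h
    refine ⟨mt_of X Ty gr c n' n (by rw [h1]), ?_, ?_⟩
    · rw [ed_def, ed_def, h1]
      exact Sym2.eq_swap
    · intro he
      rw [he] at h1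
      have h3 : n.1.1 = n.1.2 := (Prod.ext_iff.mp h1).1
      have h4 := fl_adj X Ty gr c _ _ n.2
      rw [h3] at h4
      exact X.G.loopless.irrefl _ h4
  m2 := by
    intro n n' h
    rw [ed_def, ed_def, Sym2.eq_iff] at h
    rcases h with ⟨h1, h2⟩ | ⟨h1, h2⟩
    · left
      exact Subtype.ext (Prod.ext h1 h2)
    · right
      exact mt_of X Ty gr c n n' (Prod.ext h1 h2)
  m3 := by
    intro n n' p h hp
    obtain ⟨h1, h2⟩ := mt_flL X Ty gr c n n' h
    have h3 := (flL_light X Ty gr c _ _ h1).2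
    rcases p with y | q
    · rw [pu_inl] at hp
      exact absurd hp.1 h3
    · rw [pu_inr] at hp
      exact ⟨q, rfl, by rw [h2]; exact hp.1⟩
  m4 := by
    intro n q h hp
    rw [rp_def, pu_inr] at hp
    have h1 : X.bl n.1.2 ≠ none := by
      rw [(rw_some X _ _ hp.1).1]; simp
    have h2 := fl_some X Ty gr c _ _ n.2 h1
    have h3 : X.fl Ty gr c n.1.2 n.1.1 := Or.inr (flL_symm X Ty gr c _ _ h2)
    rw [mt_def, dif_pos h3] at h
    exact absurd h (by simp)
  m5 := by
    intro n n' q h hq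
    obtain ⟨h1, h2⟩ := mt_flL X Ty gr c n n' h
    rw [h2] at hq
    rw [rp_def, pu_inr]
    exact ⟨fun h => h.2, fun h => ⟨hq, h⟩⟩

/-- the number of the ends seen by a row -/
lemma D_inr (q : B) (hq : X.par Ty gr c q) : (X.sys Ty gr c).D (Sum.inr q) =
    ((univ.filter fun p : W × W => X.flL Ty gr c p.1 p.2 ∧ X.rw p.2 = some q).card : ℝ) := by
  apply le_antisymm
  · apply D_le (f := fun n => n.1)
    · intro n hn
      rw [pu_inr] at hn
      rw [Finset.mem_filter]
      refine ⟨Finset.mem_univ _, ?_, hn.1⟩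
      apply fl_some X Ty gr c _ _ n.2
      rw [(rw_some X _ _ hn.1).1]
      simp
    · intro n n' _ _ h
      exact Subtype.ext h
  · apply le_D (f := fun n => n.1)
    intro p hp
    rw [Finset.mem_filter] at hp
    refine ⟨⟨p, Or.inr hp.2.1⟩, ?_, rfl⟩
    rw [pu_inr]
    exact ⟨hp.2.2, hq⟩

lemma D_inl (y : W) (hy : X.bl y = none) (hs : (X.d : ℝ) ^ (c / 4) ≤ ((X.sc c y).card : ℝ)) :
    (X.sys Ty gr c).D (Sum.inl y) = ((X.sc c y).card : ℝ) := by
  apply le_antisymm
  · apply D_le (f := fun n : X.En Ty gr c => n.1.1)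
    · intro n hn
      rw [pu_inl] at hn
      obtain ⟨h1, h2⟩ := hn
      have h3 := fl_none X Ty gr c _ _ n.2 h1
      rw [h2] at h3
      exact h3.2.1
    · intro n n' hn hn' he
      rw [pu_inl] at hn hn'
      exact Subtype.ext (Prod.ext he (by rw [hn.2, hn'.2]))
  · apply le_D (f := fun n : X.En Ty gr c => n.1.1)
    intro v hv
    refine ⟨⟨(v, y), Or.inl ⟨hy, hv, hs⟩⟩, ?_, rfl⟩
    rw [pu_inl]
    exact ⟨hy, rfl⟩

/-- at an end seen by `y` -/
lemma at_inl (n : X.En Ty gr c) (y : W) (h : (X.sys Ty gr c).pu n = some (Sum.inl y)) :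
    X.bl y = none ∧ n.1.1 ∈ X.sc c y ∧ (X.d : ℝ) ^ (c / 4) ≤ ((X.sc c y).card : ℝ) := by
  rw [pu_inl] at h
  obtain ⟨h1, h2⟩ := h
  have h3 := fl_none X Ty gr c _ _ n.2 h1
  rw [h2] at h3
  exact h3

lemma at_inr (n : X.En Ty gr c) (q : B) (h : (X.sys Ty gr c).pu n = some (Sum.inr q)) :
    X.flL Ty gr c n.1.1 n.1.2 ∧ X.rw n.1.2 = some q ∧ X.par Ty gr c q := by
  rw [pu_inr] at h
  refine ⟨fl_some X Ty gr c _ _ n.2 ?_, h⟩
  rw [(rw_some X _ _ h.1).1]
  simp

/-! neighbours of the vertices of `O` -/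

lemma cover_le (x : W) (S : Finset W) (Bs : Finset B)
    (h : ∀ v ∈ S, ∃ b ∈ Bs, X.G.Adj x v ∧ X.bl v = some b) :
    (S.card : ℝ) ≤ ∑ b ∈ Bs, X.n x b := by
  have h1 : S ⊆ Bs.biUnion (fun b => nb X.G x ∩ blk X.bl b) := by
    intro v hv
    obtain ⟨b, hb, h2, h3⟩ := h v hv
    rw [Finset.mem_biUnion]
    refine ⟨b, hb, ?_⟩
    rw [Finset.mem_inter, mem_nb, mem_blk]
    exact ⟨h2, h3⟩
  have h2 := (Finset.card_le_card h1).trans Finset.card_biUnion_le
  have h3 : (S.card : ℝ) ≤ ((∑ b ∈ Bs, (nb X.G x ∩ blk X.bl b).card : ℕ) : ℝ) := by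
    exact_mod_cast h2
  push_cast at h3
  exact h3

variable {X} {M : ℕ} {C ζ θ : ℝ} {c}

lemma blocks_le (hE : Env X M C ζ θ c) (q : ℕ) : (univ.filter fun b => X.cb b = q).card ≤ M := by
  rw [← Finset.card_range M]
  apply Finset.card_le_card_of_injOn (fun b => X.ix b)
  · intro b _
    exact Finset.mem_coe.mpr (Finset.mem_range.mpr (hE.ixM b))
  · intro b hb b' hb' h
    rw [Finset.mem_coe, Finset.mem_filter] at hb hb'
    exact hE.ixi b b' (by rw [hb.2, hb'.2]) h

/-- vertices of type `h3` have many scattered neighbours and belong to no cluster -/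
lemma h3_sc (hE : Env X M C ζ θ c) (hM : (M : ℝ) * (X.d : ℝ) ^ (c / 16) ≤ (X.d : ℝ) / 2) (x : W)
    (h : X.h3 c x) : X.cq x = none ∧ 3 / 8 * (X.d : ℝ) ≤ ((X.sc c x).card : ℝ) := by
  obtain ⟨⟨hx0, hO⟩, hf⟩ := h
  have hfx : X.fx c x = ∑ b with X.pb c x b, X.n x b := rfl
  have hq : X.cq x = none := by
    cases hq : X.cq x with
    | none => rfl
    | some q =>
      exfalso
      have h1 := hE.v0n x q hx0 hq
      obtain ⟨S, hS⟩ : ∃ S : Finset W, S = (nb X.G x).filter fun v => X.bl v ≠ none ∧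
        X.cq v = some q := ⟨_, rfl⟩
      rw [← hS] at h1
      have h2 : (S.card : ℝ) ≤ ((S.filter fun v => ∃ b, X.bl v = some b ∧ X.fat c x b).card : ℝ) +
          ((S.filter fun v => ¬ ∃ b, X.bl v = some b ∧ X.fat c x b).card : ℝ) := by
        have := Finset.card_union_le (S.filter fun v => ∃ b, X.bl v = some b ∧ X.fat c x b)
          (S.filter fun v => ¬ ∃ b, X.bl v = some b ∧ X.fat c x b)
        rw [Finset.filter_union_filter_not_eq] at this
        exact_mod_cast this
      have hmem : ∀ v ∈ S, X.G.Adj x v ∧ ∃ b, X.bl v = some b ∧ X.cb b = q := by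
        intro v hv
        rw [hS, Finset.mem_filter, mem_nb] at hv
        refine ⟨hv.1, ?_⟩
        obtain ⟨b, hb⟩ := Option.ne_none_iff_exists'.mp hv.2.1
        refine ⟨b, hb, ?_⟩
        have h3 := hE.cl v b hb
        rw [hv.2.2] at h3
        exact (Option.some.inj h3).symm
      have h3 : ((S.filter fun v => ∃ b, X.bl v = some b ∧ X.fat c x b).card : ℝ) ≤
          X.fx c x := by
        rw [hfx]
        apply cover_le
        intro v hv
        rw [Finset.mem_filter] at hv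
        obtain ⟨hadj, b, hb, hcb⟩ := hmem v hv.1
        obtain ⟨b', hb', hfat⟩ := hv.2
        rw [hb] at hb'
        have hbb : b = b' := Option.some.inj hb'
        subst hbb
        refine ⟨b, ?_, hadj, hb⟩
        rw [Finset.mem_filter]
        refine ⟨Finset.mem_univ _, hfat, Or.inr ?_⟩
        rw [hq, hcb]
      have h4 : ((S.filter fun v => ¬ ∃ b, X.bl v = some b ∧ X.fat c x b).card : ℝ) ≤
          M * (X.d : ℝ) ^ (c / 16) := by
        have h5 : ((S.filter fun v => ¬ ∃ b, X.bl v = some b ∧ X.fat c x b).card : ℝ) ≤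
            ∑ b ∈ (univ.filter fun b => X.cb b = q ∧ ¬ X.fat c x b), X.n x b := by
          apply cover_le
          intro v hv
          rw [Finset.mem_filter] at hv
          obtain ⟨hadj, b, hb, hcb⟩ := hmem v hv.1
          refine ⟨b, ?_, hadj, hb⟩
          rw [Finset.mem_filter]
          exact ⟨Finset.mem_univ _, hcb, fun hfat => hv.2 ⟨b, hb, hfat⟩⟩
        refine h5.trans ?_
        have h6 : ∑ b ∈ (univ.filter fun b => X.cb b = q ∧ ¬ X.fat c x b), X.n x b ≤
            (univ.filter fun b => X.cb b = q ∧ ¬ X.fat c x b).card • ((X.d : ℝ) ^ (c / 16)) := by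
          apply Finset.sum_le_card_nsmul
          intro b hb
          rw [Finset.mem_filter] at hb
          have := hb.2.2
          unfold Dat.fat at this
          push Not at this
          exact this.le
        refine h6.trans ?_
        rw [nsmul_eq_mul]
        refine mul_le_mul_of_nonneg_right ?_ (by positivity)
        have h7 : (univ.filter fun b => X.cb b = q ∧ ¬ X.fat c x b).card ≤ M := by
          refine le_trans (Finset.card_le_card ?_) (blocks_le hE q)
          intro b hb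
          rw [Finset.mem_filter] at hb ⊢
          exact ⟨hb.1, hb.2.1⟩
        exact_mod_cast h7
      linarith
  refine ⟨hq, ?_⟩
  -- all neighbours
  have hcard : ((nb X.G x).card : ℝ) = X.d := by exact_mod_cast hE.reg x
  have h1 : nb X.G x ⊆ (nb X.FO x) ∪ (((nb X.G x).filter fun v => ∃ b, X.bl v = some b ∧
      X.fat c x b) ∪ X.sc c x) := by
    intro v hv
    rw [mem_nb] at hv
    rw [Finset.mem_union, Finset.mem_union, mem_nb, Finset.mem_filter, mem_nb, mem_sc]
    cases hb : X.bl v with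
    | none => exact Or.inl ⟨hv, hx0, hb⟩
    | some b =>
      right
      by_cases hfat : X.fat c x b
      · left
        exact ⟨hv, b, rfl, hfat⟩
      · right
        refine ⟨hv, b, rfl, hfat, ?_⟩
        rw [hq, hE.cl v b hb]
        simp
  have h2 := (Finset.card_le_card h1).trans ((Finset.card_union_le _ _).trans
    (Nat.add_le_add_left (Finset.card_union_le _ _) _))
  have h3 : ((nb X.G x).card : ℝ) ≤ ((nb X.FO x).card : ℝ) +
      ((((nb X.G x).filter fun v => ∃ b, X.bl v = some b ∧ X.fat c x b).card : ℝ) +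
        ((X.sc c x).card : ℝ)) := by exact_mod_cast h2
  have h4 : (((nb X.G x).filter fun v => ∃ b, X.bl v = some b ∧ X.fat c x b).card : ℝ) ≤
      X.fx c x := by
    rw [hfx]
    apply cover_le
    intro v hv
    rw [Finset.mem_filter, mem_nb] at hv
    obtain ⟨hadj, b, hb, hfat⟩ := hv
    refine ⟨b, ?_, hadj, hb⟩
    rw [Finset.mem_filter]
    exact ⟨Finset.mem_univ _, hfat, Or.inl hq⟩
  have h5 : X.nO x = ((nb X.FO x).card : ℝ) := rfl
  rw [h5] at hO
  rw [hcard] at h3
  linarith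

variable {Ty gr}

lemma bas_ge {σ σ1 : ℝ} (h0 : 0 < σ1) (h1 : σ1 ≤ σ) (e : Sym2 W) : σ1 ≤ X.bas Ty σ e := by
  unfold Dat.bas
  by_cases h : ∀ v ∈ e, X.ty Ty v
  · rw [if_pos h]; linarith
  · rw [if_neg h]; linarith

lemma bas_le {σ : ℝ} (h1 : σ ≤ 1) (e : Sym2 W) : X.bas Ty σ e ≤ 2 := by
  unfold Dat.bas
  by_cases h : ∀ v ∈ e, X.ty Ty v
  · rw [if_pos h]; linarith
  · rw [if_neg h]; linarith

lemma p_tv (hE : Env X M C ζ θ c) (v : W) :
    ((univ.filter fun n => (X.sys Ty gr c).vx n = v).card : ℝ) ≤ (X.d : ℝ) ^ (1 - c) := by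
  by_cases hv : X.bl v = none
  · have h1 := cnt_le (P := fun n => (X.sys Ty gr c).vx n = v) (dec := fun n => inferInstance)
      (∅ : Finset W) (fun n => n.1.2) (fun n hn => by
        exfalso
        have := fl_light X Ty gr c _ _ n.2
        rw [vx_def] at hn
        rw [hn] at this
        exact this hv) (fun n n' hn _ _ => by
        exfalso
        have := fl_light X Ty gr c _ _ n.2
        rw [vx_def] at hn
        rw [hn] at this
        exact this hv)
    rw [Finset.card_empty] at h1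
    have h2 : ((univ.filter fun n => (X.sys Ty gr c).vx n = v).card : ℝ) ≤ 0 := by
      exact_mod_cast h1
    exact h2.trans (by positivity)
  · refine le_trans ?_ (hE.out v hv)
    have h1 : (univ.filter fun n => (X.sys Ty gr c).vx n = v).card ≤
        ((nb X.G v).filter fun w => X.cq w ≠ X.cq v).card := by
      apply cnt_le _ (fun n => n.1.2)
      · intro n hn
        rw [vx_def] at hn
        rw [Finset.mem_filter, mem_nb]
        have h2 := fl_adj X Ty gr c _ _ n.2
        rw [hn] at h2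
        refine ⟨h2, ?_⟩
        rcases n.2 with h3 | h3
        · have h4 := h3.2.1
          rw [mem_sc, hn] at h4
          obtain ⟨_, b, _, _, h5⟩ := h4
          exact h5
        · obtain ⟨_, ⟨b, b', hb, hb', ht, _⟩, _⟩ := h3
          rw [hn] at hb
          rw [hE.cl _ _ hb, hE.cl _ _ hb']
          intro he
          exact ht.1 (Option.some.inj he).symm
      · intro n n' hn hn' he
        rw [vx_def] at hn hn'
        exact Subtype.ext (Prod.ext (by rw [hn, hn']) he)
    exact_mod_cast h1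

lemma p_ph (p : W ⊕ B) (v : W) (hp : ¬ (X.sys Ty gr c).isR p)
    {dec : DecidablePred fun n => (X.sys Ty gr c).pu n = some p ∧ (X.sys Ty gr c).vx n = v} :
    (@Finset.filter _ (fun n => (X.sys Ty gr c).pu n = some p ∧ (X.sys Ty gr c).vx n = v) dec
      univ).card ≤ 1 := by
  rcases p with y | q
  · rw [← Finset.card_singleton ()]
    apply cnt_le _ (fun _ => ())
    · intro n _
      simp
    · intro n n' hn hn' _
      rw [pu_inl, vx_def] at hn hn'
      exact Subtype.ext (Prod.ext (by rw [hn.2, hn'.2]) (by rw [hn.1.2, hn'.1.2]))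
  · exact absurd (isR_inr X Ty gr c q) hp

lemma p_wh (p : W ⊕ B) (q : B) (hp : ¬ (X.sys Ty gr c).isR p)
    {dec : DecidablePred fun n => (X.sys Ty gr c).pu n = some p ∧
      (X.sys Ty gr c).row ((X.sys Ty gr c).vx n) = some q} :
    ((@Finset.filter _ (fun n => (X.sys Ty gr c).pu n = some p ∧
      (X.sys Ty gr c).row ((X.sys Ty gr c).vx n) = some q) dec univ).card : ℝ) ≤
      (X.d : ℝ) ^ (c / 16) := by
  rcases p with y | q'
  · have hkey : ∀ n : X.En Ty gr c, ((X.sys Ty gr c).pu n = some (Sum.inl y) ∧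
        (X.sys Ty gr c).row ((X.sys Ty gr c).vx n) = some q) →
        n.1.1 ∈ nb X.G y ∩ blk X.bl q ∧ ¬ X.fat c y q ∧ n.1.2 = y := by
      intro n hn
      have h1 := at_inl X Ty gr c n y hn.1
      rw [pu_inl, row_def, vx_def] at hn
      have h2 := h1.2.1
      rw [mem_sc] at h2
      obtain ⟨hadj, b, hb, hfat, _⟩ := h2
      have h3 := (rw_some X _ _ hn.2).1
      rw [hb] at h3
      have h4 : b = q := Option.some.inj h3
      subst h4
      rw [Finset.mem_inter, mem_nb, mem_blk]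
      exact ⟨⟨hadj, hb⟩, hfat, hn.1.2⟩
    by_cases hfat : X.fat c y q
    · have h1 := cnt_le (P := fun n => (X.sys Ty gr c).pu n = some (Sum.inl y) ∧
        (X.sys Ty gr c).row ((X.sys Ty gr c).vx n) = some q) (dec := dec)
        (∅ : Finset W) (fun n => n.1.2) (fun n hn => absurd hfat (hkey n hn).2.1)
        (fun n n' hn _ _ => absurd hfat (hkey n hn).2.1)
      rw [Finset.card_empty] at h1
      have h2 : ((@Finset.filter _ (fun n => (X.sys Ty gr c).pu n = some (Sum.inl y) ∧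
        (X.sys Ty gr c).row ((X.sys Ty gr c).vx n) = some q) dec univ).card : ℝ) ≤ 0 := by
        exact_mod_cast h1
      exact h2.trans (by positivity)
    · have h1 := cnt_le (P := fun n => (X.sys Ty gr c).pu n = some (Sum.inl y) ∧
        (X.sys Ty gr c).row ((X.sys Ty gr c).vx n) = some q) (dec := dec)
        (nb X.G y ∩ blk X.bl q) (fun n => n.1.1) (fun n hn => (hkey n hn).1)
        (fun n n' hn hn' he => Subtype.ext (Prod.ext he
          (by rw [(hkey n hn).2.2, (hkey n' hn').2.2])))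
      have h2 : ((@Finset.filter _ (fun n => (X.sys Ty gr c).pu n = some (Sum.inl y) ∧
        (X.sys Ty gr c).row ((X.sys Ty gr c).vx n) = some q) dec univ).card : ℝ) ≤
          ((nb X.G y ∩ blk X.bl q).card : ℝ) := by exact_mod_cast h1
      refine h2.trans ?_
      have h3 : ¬ (X.d : ℝ) ^ (c / 16) ≤ ((nb X.G y ∩ blk X.bl q).card : ℝ) := hfat
      push Not at h3
      exact h3.le
  · exact absurd (isR_inr X Ty gr c q') hp

lemma p_wr (p : W ⊕ B) (q : B) (hp : (X.sys Ty gr c).isR p)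
    {dec : DecidablePred fun n => (X.sys Ty gr c).pu n = some p ∧
      (X.sys Ty gr c).row ((X.sys Ty gr c).vx n) = some q} :
    ((@Finset.filter _ (fun n => (X.sys Ty gr c).pu n = some p ∧
      (X.sys Ty gr c).row ((X.sys Ty gr c).vx n) = some q) dec univ).card : ℝ) ≤
      (X.d : ℝ) ^ (1 - 3 * c / 4) := by
  rcases p with y | q'
  · exact absurd hp (isR_inl X Ty gr c y)
  · have hkey : ∀ n : X.En Ty gr c, ((X.sys Ty gr c).pu n = some (Sum.inr q') ∧
        (X.sys Ty gr c).row ((X.sys Ty gr c).vx n) = some q) →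
        n.1 ∈ (((blk X.bl q) ×ˢ (blk X.bl q')).filter fun p => X.Th.Adj p.1 p.2) ∧
          X.tp c q q' := by
      intro n hn
      obtain ⟨⟨h1, ⟨b, b', hb, hb', ht, _⟩, _⟩, h3, _⟩ := at_inr X Ty gr c n q' hn.1
      have h4 := hn.2
      rw [row_def, vx_def] at h4
      have h5 := (rw_some X _ _ h4).1
      have h6 := (rw_some X _ _ h3).1
      have h7 : b = q := by rw [hb] at h5; exact Option.some.inj h5
      have h8 : b' = q' := by rw [hb'] at h6; exact Option.some.inj h6
      subst h7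
      subst h8
      rw [Finset.mem_filter, Finset.mem_product, mem_blk, mem_blk]
      exact ⟨⟨⟨hb, hb'⟩, h1⟩, ht⟩
    by_cases ht : X.tp c q q'
    · have h1 := cnt_le (P := fun n => (X.sys Ty gr c).pu n = some (Sum.inr q') ∧
        (X.sys Ty gr c).row ((X.sys Ty gr c).vx n) = some q) (dec := dec)
        (((blk X.bl q) ×ˢ (blk X.bl q')).filter fun p => X.Th.Adj p.1 p.2) (fun n => n.1)
        (fun n hn => (hkey n hn).1) (fun n n' _ _ he => Subtype.ext he)
      have h2 : ((@Finset.filter _ (fun n => (X.sys Ty gr c).pu n = some (Sum.inr q') ∧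
        (X.sys Ty gr c).row ((X.sys Ty gr c).vx n) = some q) dec univ).card : ℝ) ≤
          X.e q q' := by
        unfold Dat.e
        rw [eE_eq]
        exact_mod_cast h1
      exact h2.trans ht.2.le
    · have h1 := cnt_le (P := fun n => (X.sys Ty gr c).pu n = some (Sum.inr q') ∧
        (X.sys Ty gr c).row ((X.sys Ty gr c).vx n) = some q) (dec := dec)
        (∅ : Finset W) (fun n => n.1.2) (fun n hn => absurd (hkey n hn).2 ht)
        (fun n n' hn _ _ => absurd (hkey n hn).2 ht)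
      rw [Finset.card_empty] at h1
      have h2 : ((@Finset.filter _ (fun n => (X.sys Ty gr c).pu n = some (Sum.inr q') ∧
        (X.sys Ty gr c).row ((X.sys Ty gr c).vx n) = some q) dec univ).card : ℝ) ≤ 0 := by
        exact_mod_cast h1
      exact h2.trans (by positivity)

lemma p_Dh (n : X.En Ty gr c) (p : W ⊕ B) (h : (X.sys Ty gr c).pu n = some p)
    (hp : ¬ (X.sys Ty gr c).isR p) : (X.d : ℝ) ^ (c / 4) ≤ (X.sys Ty gr c).D p := by
  rcases p with y | q
  · obtain ⟨h1, _, h3⟩ := at_inl X Ty gr c n y h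
    rw [D_inl X Ty gr c y h1 h3]
    exact h3
  · exact absurd (isR_inr X Ty gr c q) hp

lemma p_Dr (n : X.En Ty gr c) (p : W ⊕ B) (h : (X.sys Ty gr c).pu n = some p)
    (hp : (X.sys Ty gr c).isR p) : (X.d : ℝ) ^ (1 - c / 2) ≤ (X.sys Ty gr c).D p := by
  rcases p with y | q
  · exact absurd hp (isR_inl X Ty gr c y)
  · obtain ⟨_, _, h3⟩ := at_inr X Ty gr c n q h
    rw [D_inr X Ty gr c q h3]
    exact h3

lemma p_Er (q : B) (hq : ¬ X.par Ty gr c q) :
    ((univ.filter fun n => ∃ n', (X.sys Ty gr c).mt n = some n' ∧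
      (X.sys Ty gr c).row ((X.sys Ty gr c).vx n') = some q).card : ℝ) ≤
      (X.d : ℝ) ^ (1 - c / 2) := by
  have h1 : (univ.filter fun n => ∃ n', (X.sys Ty gr c).mt n = some n' ∧
      (X.sys Ty gr c).row ((X.sys Ty gr c).vx n') = some q).card ≤
      (univ.filter fun p : W × W => X.flL Ty gr c p.1 p.2 ∧ X.rw p.2 = some q).card := by
    apply cnt_le _ (fun n => n.1)
    · rintro n ⟨n', h2, h3⟩
      obtain ⟨h4, h5⟩ := mt_flL X Ty gr c n n' h2
      rw [h5, row_def] at h3
      rw [Finset.mem_filter]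
      exact ⟨Finset.mem_univ _, h4, h3⟩
    · intro n n' _ _ he
      exact Subtype.ext he
  have h2 : ¬ (X.d : ℝ) ^ (1 - c / 2) ≤
    ((univ.filter fun p : W × W => X.flL Ty gr c p.1 p.2 ∧ X.rw p.2 = some q).card : ℝ) := hq
  push Not at h2
  refine le_trans ?_ h2.le
  exact_mod_cast h1

lemma p_DA (hE : Env X M C ζ θ c) (hd1 : 1 ≤ (X.d : ℝ)) (hC : C ≤ X.d) (p : W ⊕ B) :
    (X.sys Ty gr c).D p ≤ (X.d : ℝ) ^ (3 : ℝ) := by
  have h3 : (X.d : ℝ) ^ (3 : ℝ) = (X.d : ℝ) ^ 3 := by
    rw [← Real.rpow_natCast]; norm_num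
  rw [h3]
  by_cases hn : ∃ n, (X.sys Ty gr c).pu n = some p
  · obtain ⟨n, hn⟩ := hn
    rcases p with y | q
    · obtain ⟨h1, _, h2⟩ := at_inl X Ty gr c n y hn
      rw [D_inl X Ty gr c y h1 h2]
      have h4 : ((X.sc c y).card : ℝ) ≤ X.d := by
        have h5 : (X.sc c y).card ≤ (nb X.G y).card := by
          unfold Dat.sc
          exact Finset.card_filter_le _ _
        rw [hE.reg y] at h5
        exact_mod_cast h5
      refine h4.trans ?_
      have h6 : (X.d : ℝ) ^ 1 ≤ (X.d : ℝ) ^ 3 := pow_le_pow_right₀ hd1 (by norm_num)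
      rwa [pow_one] at h6
    · obtain ⟨_, _, hq⟩ := at_inr X Ty gr c n q hn
      rw [D_inr X Ty gr c q hq]
      have h4 : (univ.filter fun p : W × W => X.flL Ty gr c p.1 p.2 ∧ X.rw p.2 = some q).card ≤
          (((blk X.bl q) ×ˢ (univ : Finset W)).filter fun p => X.Th.Adj p.1 p.2).card := by
        apply Finset.card_le_card_of_injOn (fun p => (p.2, p.1))
        · intro p hp
          rw [Finset.mem_coe, Finset.mem_filter] at hp
          rw [Finset.mem_coe, Finset.mem_filter, Finset.mem_product, mem_blk]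
          exact ⟨⟨(rw_some X _ _ hp.2.2).1, Finset.mem_univ _⟩, hp.2.1.1.symm⟩
        · intro p _ p' _ he
          exact Prod.ext (Prod.ext_iff.mp he).2 (Prod.ext_iff.mp he).1
      have h5 : (((univ.filter fun p : W × W => X.flL Ty gr c p.1 p.2 ∧
          X.rw p.2 = some q).card : ℕ) : ℝ) ≤ eE X.Th (blk X.bl q) univ := by
        rw [eE_eq]
        exact_mod_cast h4
      refine h5.trans ?_
      have h6 : eE X.Th (blk X.bl q) univ ≤ ((blk X.bl q).card : ℝ) * X.d := by
        unfold eE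
        have h7 : ∑ v ∈ blk X.bl q, ((nb X.Th v ∩ univ).card : ℝ) ≤
            (blk X.bl q).card • (X.d : ℝ) := by
          apply Finset.sum_le_card_nsmul
          intro v _
          have h8 : (nb X.Th v ∩ univ).card ≤ (nb X.G v).card := by
            apply Finset.card_le_card
            intro w hw
            rw [Finset.mem_inter, mem_nb] at hw
            rw [mem_nb]
            exact th_le X hw.1
          rw [hE.reg v] at h8
          exact_mod_cast h8
        rwa [nsmul_eq_mul] at h7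
      refine h6.trans ?_
      have h7 := (hE.sz q).2
      have h8 : ((blk X.bl q).card : ℝ) * X.d ≤ (X.d * X.d) * X.d := by
        refine mul_le_mul_of_nonneg_right (h7.trans ?_) (by linarith)
        exact mul_le_mul_of_nonneg_right hC (by linarith)
      refine h8.trans (le_of_eq ?_)
      ring
  · push Not at hn
    rw [D_zero _ p hn]
    positivity

lemma ex_two (γ : Fin 3) : ∃ a a' : Fin 3, a ≠ a' ∧ a ≠ γ ∧ a' ≠ γ := by
  fin_cases γ
  · exact ⟨1, 2, by decide, by decide, by decide⟩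
  · exact ⟨0, 2, by decide, by decide, by decide⟩
  · exact ⟨0, 1, by decide, by decide, by decide⟩

lemma p_mass (hG : Grp X c gr) {σ σ1 : ℝ} (h0 : 0 < σ1) (h1 : σ1 ≤ σ) (hd1 : 1 ≤ (X.d : ℝ))
    (h3 : 3 ≤ (X.d : ℝ) ^ (c / 8)) (p : W ⊕ B) (γ : Fin 3)
    {dec : DecidablePred fun n => (X.sys Ty gr c).pu n = some p ∧ (X.sys Ty gr c).noG
      ((univ.filter fun v => X.ty Ty v).filter fun v => gr v = γ) n} :
    σ1 / 40 * (X.sys Ty gr c).D p ≤
      ∑ n ∈ @Finset.filter _ (fun n => (X.sys Ty gr c).pu n = some p ∧ (X.sys Ty gr c).noG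
        ((univ.filter fun v => X.ty Ty v).filter fun v => gr v = γ) n) dec univ,
        X.bas Ty σ ((X.sys Ty gr c).ed n) := by
  have hb : ∀ n : X.En Ty gr c, σ1 ≤ X.bas Ty σ ((X.sys Ty gr c).ed n) :=
    fun n => bas_ge h0 h1 _
  by_cases hn : ∃ n, (X.sys Ty gr c).pu n = some p
  swap
  · push Not at hn
    rw [D_zero _ p hn, mul_zero]
    exact Finset.sum_nonneg (fun n _ => h0.le.trans (hb n))
  obtain ⟨n0, hn0⟩ := hn
  obtain ⟨a, a', haa, ha, ha'⟩ := ex_two γ
  rcases p with y | q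
  · obtain ⟨hy, _, hs⟩ := at_inl X Ty gr c n0 y hn0
    rw [D_inl X Ty gr c y hy hs]
    have h4 := hG.hub y hy hs a
    have h5 := sum_ge (dec := dec) (fun n => X.bas Ty σ ((X.sys Ty gr c).ed n)) σ1 h0.le hb
      ((X.sc c y).filter fun v => gr v = a) (fun n => n.1.1) (by
        intro v hv
        rw [Finset.mem_filter] at hv
        refine ⟨⟨(v, y), Or.inl ⟨hy, hv.1, hs⟩⟩, ⟨?_, ?_, ?_⟩, rfl⟩
        · rw [pu_inl]
          exact ⟨hy, rfl⟩
        · intro hmem
          rw [Finset.mem_filter] at hmem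
          apply ha
          rw [← hv.2]
          exact hmem.2
        · intro n' hn' _
          obtain ⟨h6, _⟩ := mt_flL X Ty gr c _ n' hn'
          exact (flL_light X Ty gr c _ _ h6).2 hy)
    refine le_trans ?_ h5
    have h6 : σ1 * (((X.sc c y).card : ℝ) / 4) ≤
        σ1 * (((X.sc c y).filter fun v => gr v = a).card : ℝ) :=
      mul_le_mul_of_nonneg_left h4 h0.le
    refine le_trans ?_ h6
    have h7 : (0 : ℝ) ≤ ((X.sc c y).card : ℝ) := by positivity
    nlinarith [mul_nonneg h0.le h7]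
  · obtain ⟨_, hr, hq⟩ := at_inr X Ty gr c n0 q hn0
    have hkq : X.kd q = Kd.S := (rw_some X _ _ hr).2
    rw [D_inr X Ty gr c q hq]
    obtain ⟨D', hD'⟩ : ∃ D' : ℝ, D' = ((univ.filter fun p : W × W =>
      X.flL Ty gr c p.1 p.2 ∧ X.rw p.2 = some q).card : ℝ) := ⟨_, rfl⟩
    have hD1 : (X.d : ℝ) ^ (1 - c / 2) ≤ D' := by rw [hD']; exact hq
    rw [← hD']
    have hsum : D' ≤ eE X.Th (blk X.bl q) (X.far c q Kd.K) +
        (eE X.Th (blk X.bl q) (X.far c q Kd.N) + eE X.Th (blk X.bl q) (X.far c q Kd.S)) := by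
      rw [hD', eE_eq, eE_eq, eE_eq]
      have h4 : (univ.filter fun p : W × W => X.flL Ty gr c p.1 p.2 ∧ X.rw p.2 = some q).card ≤
          ((((blk X.bl q) ×ˢ (X.far c q Kd.K)).filter fun p => X.Th.Adj p.1 p.2) ∪
          ((((blk X.bl q) ×ˢ (X.far c q Kd.N)).filter fun p => X.Th.Adj p.1 p.2) ∪
          (((blk X.bl q) ×ˢ (X.far c q Kd.S)).filter fun p => X.Th.Adj p.1 p.2))).card := by
        apply Finset.card_le_card_of_injOn (fun p => (p.2, p.1))
        · intro p hp
          rw [Finset.mem_coe, Finset.mem_filter] at hp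
          obtain ⟨_, ⟨h5, ⟨b, b', hb1, hb2, ht, _⟩, _⟩, h6⟩ := hp
          have h7 := (rw_some X _ _ h6).1
          have h8 : b' = q := by rw [hb2] at h7; exact Option.some.inj h7
          subst h8
          have h9 : ∀ κ, X.kd b = κ → (p.2, p.1) ∈
              (((blk X.bl b') ×ˢ (X.far c b' κ)).filter fun p => X.Th.Adj p.1 p.2) := by
            intro κ hκ
            rw [Finset.mem_filter, Finset.mem_product, mem_blk]
            refine ⟨⟨hb2, ?_⟩, h5.symm⟩
            unfold Dat.far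
            rw [Finset.mem_filter]
            exact ⟨Finset.mem_univ _, b, hb1, hκ, tp_symm X c _ _ ht⟩
          rw [Finset.mem_coe, Finset.mem_union, Finset.mem_union]
          cases hk : X.kd b with
          | K => exact Or.inl (h9 _ hk)
          | N => exact Or.inr (Or.inl (h9 _ hk))
          | S => exact Or.inr (Or.inr (h9 _ hk))
        · intro p _ p' _ he
          exact Prod.ext (Prod.ext_iff.mp he).2 (Prod.ext_iff.mp he).1
      have h5 := h4.trans ((Finset.card_union_le _ _).trans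
        (Nat.add_le_add_left (Finset.card_union_le _ _) _))
      exact_mod_cast h5
    have hex : ∃ κ, D' / 3 ≤ eE X.Th (blk X.bl q) (X.far c q κ) := by
      by_contra hno
      push Not at hno
      have h4 := hno Kd.K
      have h5 := hno Kd.N
      have h6 := hno Kd.S
      linarith
    obtain ⟨κ, hκ⟩ := hex
    have hbig : (X.d : ℝ) ^ (1 - 5 * c / 8) ≤ eE X.Th (blk X.bl q) (X.far c q κ) := by
      refine le_trans ?_ hκ
      have hd0 : 0 < (X.d : ℝ) := by linarith
      have h4 : (X.d : ℝ) ^ (1 - c / 2) = (X.d : ℝ) ^ (1 - 5 * c / 8) * (X.d : ℝ) ^ (c / 8) := by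
        rw [← Real.rpow_add hd0]
        congr 1
        ring
      have h5 : (X.d : ℝ) ^ (1 - 5 * c / 8) * 3 ≤
          (X.d : ℝ) ^ (1 - 5 * c / 8) * (X.d : ℝ) ^ (c / 8) :=
        mul_le_mul_of_nonneg_left h3 (by positivity)
      rw [← h4] at h5
      linarith
    have hrow := hG.row q κ hbig a a'
    unfold Dat.cg at hrow
    rw [eE_eq X.Th ((blk X.bl q).filter _) _] at hrow
    have h5 := sum_ge (dec := dec) (fun n => X.bas Ty σ ((X.sys Ty gr c).ed n)) σ1 h0.le hb
      (((((blk X.bl q).filter fun v => gr v = a) ×ˢ ((X.far c q κ).filter fun v => gr v = a'))).filter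
        fun p => X.Th.Adj p.1 p.2) (fun n => (n.1.2, n.1.1)) (by
        intro p hp
        rw [Finset.mem_filter, Finset.mem_product, Finset.mem_filter, Finset.mem_filter, mem_blk]
          at hp
        obtain ⟨⟨⟨hp1, hp2⟩, hp3, hp4⟩, hp5⟩ := hp
        unfold Dat.far at hp3
        rw [Finset.mem_filter] at hp3
        obtain ⟨_, b', hb', _, ht⟩ := hp3
        refine ⟨⟨(p.2, p.1), Or.inr ⟨hp5.symm, ⟨b', q, hb', hp1, tp_symm X c _ _ ht,
          Or.inr hkq⟩, ?_⟩⟩, ⟨?_, ?_, ?_⟩, rfl⟩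
        · rintro ⟨_, _, h6⟩
          apply haa
          rw [← hp2, ← hp4]
          exact h6.symm
        · rw [pu_inr]
          exact ⟨rw_of X _ _ hp1 hkq, hq⟩
        · intro hmem
          rw [Finset.mem_filter] at hmem
          apply ha'
          rw [← hp4]
          exact hmem.2
        · intro n' hn' hmem
          obtain ⟨_, h7⟩ := mt_flL X Ty gr c _ n' hn'
          rw [h7, Finset.mem_filter] at hmem
          apply ha
          rw [← hp2]
          exact hmem.2)
    refine le_trans ?_ h5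
    refine le_trans ?_ (mul_le_mul_of_nonneg_left hrow h0.le)
    have h6 : 0 ≤ D' := by
      refine le_trans ?_ hD1
      positivity
    have h7 : D' / 36 ≤ eE X.Th (blk X.bl q) (X.far c q κ) / 12 := by linarith
    refine le_trans ?_ (mul_le_mul_of_nonneg_left h7 h0.le)
    nlinarith [mul_nonneg h0.le h6]

lemma p_w0 (hE : Env X M C ζ θ c) {g : ℕ} {σ σ1 : ℝ} (h0 : 0 < σ1) (h1 : σ1 ≤ σ)
    (off : Fin g → W → ℝ) (hoff : ∀ k x, |off k x| ≤ (X.d : ℝ) ^ (1 / 2 : ℝ))
    (hd1 : 1 ≤ (X.d : ℝ)) (hM : (M : ℝ) * (X.d : ℝ) ^ (c / 16) ≤ (X.d : ℝ) / 2)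
    (hb : 16 / (3 * σ1) ≤ (X.d : ℝ) ^ (1 / 4 : ℝ)) (k : Fin g) (e : Sym2 W) :
    |X.w0 Ty c σ off k e - X.bas Ty σ e| ≤ (X.d : ℝ) ^ (-(1 / 4) : ℝ) * X.bas Ty σ e := by
  have hd0 : 0 < (X.d : ℝ) := by linarith
  have hbas : 0 ≤ X.bas Ty σ e := h0.le.trans (bas_ge h0 h1 e)
  obtain ⟨s, hs⟩ : ∃ s : ℝ, s = ∑ x with x ∈ e ∧ X.h3 c x, off k x / (σ * ((X.sc c x).card : ℝ)) :=
    ⟨_, rfl⟩
  have hw : X.w0 Ty c σ off k e - X.bas Ty σ e = X.bas Ty σ e * s := by
    unfold Dat.w0
    rw [← hs]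
    ring
  rw [hw, abs_mul, abs_of_nonneg hbas, mul_comm]
  refine mul_le_mul_of_nonneg_right ?_ hbas
  obtain ⟨a, ha⟩ : ∃ a : ℝ, a = (X.d : ℝ) ^ (1 / 4 : ℝ) := ⟨_, rfl⟩
  have ha0 : 0 < a := by rw [ha]; positivity
  have ha2 : (X.d : ℝ) ^ (1 / 2 : ℝ) = a ^ 2 := by
    rw [ha, ← Real.rpow_natCast, ← Real.rpow_mul hd0.le]
    norm_num
  have ha4 : (X.d : ℝ) = a ^ 4 := by
    rw [ha, ← Real.rpow_natCast, ← Real.rpow_mul hd0.le]
    norm_num
  have ham : (X.d : ℝ) ^ (-(1 / 4) : ℝ) = a⁻¹ := by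
    rw [Real.rpow_neg hd0.le, ha]
  rw [ham]
  have hterm : ∀ x, X.h3 c x → |off k x / (σ * ((X.sc c x).card : ℝ))| ≤ a⁻¹ / 2 := by
    intro x hx
    have h2 := (h3_sc hE hM x hx).2
    have h3 : 0 < σ * ((X.sc c x).card : ℝ) := by
      have h31 : 0 < ((X.sc c x).card : ℝ) := by linarith
      have h32 : 0 < σ := by linarith
      exact mul_pos h32 h31
    rw [abs_div, abs_of_pos h3, div_le_iff₀ h3]
    refine (hoff k x).trans ?_
    rw [ha2]
    have h4 : σ1 * (3 / 8 * a ^ 4) ≤ σ * ((X.sc c x).card : ℝ) := by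
      rw [ha4] at h2
      exact mul_le_mul h1 h2 (by positivity) (by linarith)
    have h5 : a⁻¹ / 2 * (σ1 * (3 / 8 * a ^ 4)) ≤ a⁻¹ / 2 * (σ * ((X.sc c x).card : ℝ)) :=
      mul_le_mul_of_nonneg_left h4 (by positivity)
    refine le_trans ?_ h5
    have h6 : a⁻¹ / 2 * (σ1 * (3 / 8 * a ^ 4)) = (3 * σ1 * a / 16) * a ^ 2 := by
      have h61 : a⁻¹ / 2 * (σ1 * (3 / 8 * a ^ 4)) = (a⁻¹ * a) * ((3 * σ1 * a / 16) * a ^ 2) := by
        ring
      rw [h61, inv_mul_cancel₀ ha0.ne', one_mul]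
    rw [h6]
    rw [← ha, div_le_iff₀ (by positivity)] at hb
    have h7 : 1 ≤ 3 * σ1 * a / 16 := by linarith
    nlinarith [sq_nonneg a]
  have hcard : (univ.filter fun x => x ∈ e ∧ X.h3 c x).card ≤ 2 := by
    induction e using Sym2.ind with
    | _ u v =>
      refine (Finset.card_le_card (t := {u, v}) ?_).trans Finset.card_le_two
      intro x hx
      rw [Finset.mem_filter, Sym2.mem_iff] at hx
      rw [Finset.mem_insert, Finset.mem_singleton]
      exact hx.2.1
  rw [hs]
  refine (Finset.abs_sum_le_sum_abs _ _).trans ?_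
  have h8 := Finset.sum_le_card_nsmul (univ.filter fun x => x ∈ e ∧ X.h3 c x)
    (fun x => |off k x / (σ * ((X.sc c x).card : ℝ))|) (a⁻¹ / 2) (fun x hx => by
      rw [Finset.mem_filter] at hx
      exact hterm x hx.2.2)
  refine h8.trans ?_
  rw [nsmul_eq_mul]
  have h9 : ((univ.filter fun x => x ∈ e ∧ X.h3 c x).card : ℝ) ≤ 2 := by exact_mod_cast hcard
  have h10 : (0 : ℝ) ≤ a⁻¹ / 2 := by positivity
  calc ((univ.filter fun x => x ∈ e ∧ X.h3 c x).card : ℝ) * (a⁻¹ / 2) ≤ 2 * (a⁻¹ / 2) :=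
        mul_le_mul_of_nonneg_right h9 h10
    _ = a⁻¹ := by ring

lemma si_inl (x v : W) (h : X.si v = Sum.inl x) : v = x ∧ X.bl v = none := by
  cases hb : X.bl v with
  | none =>
    rw [si_none X v hb] at h
    exact ⟨by simpa using h, rfl⟩
  | some b =>
    rw [si_some X v b hb] at h
    exact absurd h (by simp)

lemma si_inr (b : B) (v : W) (h : X.si v = Sum.inr b) : X.bl v = some b := by
  cases hb : X.bl v with
  | none =>
    rw [si_none X v hb] at h
    exact absurd h (by simp)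
  | some b' =>
    rw [si_some X v b' hb] at h
    have : b' = b := by simpa using h
    rw [this]

lemma p_sz (hE : Env X M C ζ θ c) (hC : 1 ≤ C) (hd1 : 1 ≤ (X.d : ℝ)) (i : W ⊕ B)
    {dec : DecidablePred fun v => X.si v = i} :
    ((@Finset.filter _ (fun v => X.si v = i) dec univ).card : ℝ) ≤ (C + 8) * X.d := by
  rcases i with x | b
  · have h1 := cnt_le (P := fun v => X.si v = Sum.inl x) (dec := dec) ({x} : Finset W)
      (fun v => v) (fun v hv => by
        rw [Finset.mem_singleton]; exact (si_inl x v hv).1) (fun v v' _ _ h => h)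
    rw [Finset.card_singleton] at h1
    have h2 : ((@Finset.filter _ (fun v => X.si v = Sum.inl x) dec univ).card : ℝ) ≤ 1 := by
      exact_mod_cast h1
    nlinarith
  · have h1 := cnt_le (P := fun v => X.si v = Sum.inr b) (dec := dec) (blk X.bl b)
      (fun v => v) (fun v hv => by
        rw [mem_blk]; exact si_inr b v hv) (fun v v' _ _ h => h)
    have h2 : ((@Finset.filter _ (fun v => X.si v = Sum.inr b) dec univ).card : ℝ) ≤
        ((blk X.bl b).card : ℝ) := by exact_mod_cast h1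
    refine h2.trans ((hE.sz b).2.trans ?_)
    nlinarith

end Basic

lemma p_szT {W B : Type u} [Fintype W] [Fintype B] {X : Dat W B} {Ty : Kd → Prop}
    {gr : W → Fin 3} {c C : ℝ} (hG : Grp X c gr) (hC : 1 ≤ C) (i : W ⊕ B) (γ : Fin 3)
    {dec : DecidablePred fun v => X.si v = i}
    {dec' : DecidablePred fun v => X.si v = i ∧ gr v = γ}
    (hne : (@Finset.filter W (fun v => X.si v = i) dec
      (univ.filter fun v => X.ty Ty v)).Nonempty) :
    (X.d : ℝ) ≤ (C + 8) * ((@Finset.filter W (fun v => X.si v = i ∧ gr v = γ) dec'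
      (univ.filter fun v => X.ty Ty v)).card : ℝ) := by
  obtain ⟨v, hv⟩ := hne
  have hv1 := (Finset.mem_filter.mp (Finset.mem_of_mem_filter v hv)).2
  have hi := (@Finset.mem_filter _ _ dec _ _).mp hv |>.2
  obtain ⟨b, hb, hk⟩ := hv1
  rw [si_some X v b hb] at hi
  have h3 := hG.sz b γ
  have h4 : ((blk X.bl b).filter fun v => gr v = γ).card ≤
      (@Finset.filter W (fun v => X.si v = i ∧ gr v = γ) dec'
        (univ.filter fun v => X.ty Ty v)).card := by
    apply Finset.card_le_card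
    intro w hw
    rw [Finset.mem_filter, mem_blk] at hw
    refine (@Finset.mem_filter _ _ dec' _ _).mpr ⟨?_, ?_, hw.2⟩
    · rw [Finset.mem_filter]
      exact ⟨Finset.mem_univ _, b, hw.1, hk⟩
    · rw [← hi]
      exact si_some X w b hw.1
  obtain ⟨t, ht⟩ : ∃ t : ℝ, t = ((@Finset.filter W (fun v => X.si v = i ∧ gr v = γ) dec'
      (univ.filter fun v => X.ty Ty v)).card : ℝ) := ⟨_, rfl⟩
  have h5 : (((blk X.bl b).filter fun v => gr v = γ).card : ℝ) ≤ t := by
    rw [ht]
    exact_mod_cast h4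
  rw [← ht]
  have h0 : (0 : ℝ) ≤ X.d := by positivity
  nlinarith

theorem stmt_FSY : Stmt_FSY.{u} := by
  intro g M C σ1 c _ hC h0 hc hc1
  -- large `d`
  have hlim : ∀ (K a : ℝ), 0 < a → ∃ d0 : ℕ, ∀ d : ℕ, d0 ≤ d → K ≤ (d : ℝ) ^ a := by
    intro K a ha
    have h1 := ((tendsto_rpow_atTop ha).comp tendsto_natCast_atTop_atTop).eventually_ge_atTop K
    rw [Filter.eventually_atTop] at h1
    exact h1
  obtain ⟨d1, hd1⟩ := hlim (2 * M) (1 / 2) (by norm_num)
  obtain ⟨d2, hd2⟩ := hlim 3 (c / 8) (by positivity)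
  obtain ⟨d3, hd3⟩ := hlim (16 / (3 * σ1)) (1 / 4) (by norm_num)
  obtain ⟨d4, hd4⟩ := hlim C 1 one_pos
  refine ⟨d1 + d2 + d3 + d4 + 1, ?_⟩
  intro W B _ _ X Ty gr σ off hd h1 h2 hE hG hTy hoff
  have k1 := hd1 X.d (by omega)
  have k2 := hd2 X.d (by omega)
  have k3 := hd3 X.d (by omega)
  have k4 := hd4 X.d (by omega)
  rw [Real.rpow_one] at k4
  have hdd : 1 ≤ (X.d : ℝ) := by
    have : 1 ≤ X.d := by omega
    exact_mod_cast this
  have hdp : 0 < (X.d : ℝ) := by linarith
  have hM : (M : ℝ) * (X.d : ℝ) ^ (c / 16) ≤ (X.d : ℝ) / 2 := by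
    have h3 : (X.d : ℝ) ^ (c / 16) ≤ (X.d : ℝ) ^ (1 / 2 : ℝ) :=
      Real.rpow_le_rpow_of_exponent_le hdd (by linarith)
    have h4 : (X.d : ℝ) = (X.d : ℝ) ^ (1 / 2 : ℝ) * (X.d : ℝ) ^ (1 / 2 : ℝ) := by
      rw [← Real.rpow_add hdp]; norm_num
    have h5 : (0 : ℝ) ≤ M := by positivity
    have h6 : (0 : ℝ) ≤ (X.d : ℝ) ^ (1 / 2 : ℝ) := by positivity
    have h7 : (M : ℝ) * (X.d : ℝ) ^ (c / 16) ≤ M * (X.d : ℝ) ^ (1 / 2 : ℝ) :=
      mul_le_mul_of_nonneg_left h3 h5
    have h8 : 2 * (M : ℝ) * (X.d : ℝ) ^ (1 / 2 : ℝ) ≤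
        (X.d : ℝ) ^ (1 / 2 : ℝ) * (X.d : ℝ) ^ (1 / 2 : ℝ) := mul_le_mul_of_nonneg_right k1 h6
    rw [← h4] at h8
    linarith
  refine { ok := ok X Ty gr c, gd := ?_, b0 := ?_, w0 := ?_, tv := ?_, ph := ?_, wh := ?_,
           wr := ?_, Dh := ?_, Dr := ?_, Er := ?_, DA := ?_, mass := ?_, sz := ?_, szT := ?_,
           rs := ?_, sr := ?_ }
  · intro n n' h hv hv'
    obtain ⟨h3, h4⟩ := mt_flL X Ty gr c n n' h
    rw [vx_def, Finset.mem_filter] at hv
    rw [h4, Finset.mem_filter] at hv'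
    rw [vx_def, h4]
    intro he
    exact h3.2.2 ⟨hv.2, hv'.2, he⟩
  · intro _ e
    exact ⟨h0.le.trans (bas_ge h0 h1 e), bas_le h2 e⟩
  · intro k e
    exact p_w0 hE h0 h1 off hoff hdd hM k3 k e
  · intro v
    exact p_tv hE v
  · intro p v hp
    exact p_ph p v hp
  · intro p q hp
    exact p_wh p q hp
  · intro p q hp
    exact p_wr p q hp
  · intro n p h hp
    exact p_Dh n p h hp
  · intro n p h hp
    exact p_Dr n p h hp
  · intro q hq
    exact p_Er q hq
  · intro p
    exact p_DA hE hdd k4 p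
  · intro _ p γ
    exact p_mass hG h0 h1 hdd k2 p γ
  · intro i
    exact p_sz hE hC hdd i
  · intro i hne γ
    exact p_szT hG hC i γ hne
  · intro v v' h
    rw [row_def, row_def]
    cases hb : X.bl v with
    | none =>
      rw [si_none X v hb] at h
      have h3 := (si_inl v v' h.symm).1
      rw [h3]
    | some b =>
      rw [si_some X v b hb] at h
      have h3 := si_inr b v' h.symm
      exact rw_congr X _ _ (by rw [hb, h3])
  · intro v v' q h h'
    rw [row_def] at h h'
    rw [si_some X v q (rw_some X _ _ h).1, si_some X v' q (rw_some X _ _ h').1]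

end Pool.Agent.Work.MP_db9399_ts.helper79
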